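import Mathlib

/-!
# The Denjoy-Wolff set of a contracting forward composition of inner functions can have full measure
although the interior orbits converge to the boundary with divergent sum

We construct inner functions `f_1, f_2, ...` (each of them a Blaschke product of degree two, in
particular none of them is injective), such that the forward composition `F_n = f_n ∘ ... ∘ f_1` is
contracting, its interior orbits converge to the boundary, the series `∑ (1 - |F_n(0)|)` diverges,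
and the Denjoy-Wolff set has full measure.
-/

set_option autoImplicit false

open Filter Topology MeasureTheory Metric Set

namespace Pool.Agent.Results.MP_9b5b1e_an.DWFullMeasure

/-- `w` is the radial limit of `f` at the point `ζ` of the unit circle. -/
def RadialLim (f : ℂ → ℂ) (ζ w : ℂ) : Prop :=
  Tendsto (fun r : ℝ => f (r * ζ)) (𝓝[<] (1 : ℝ)) (𝓝 w)

/-- The property `p` holds at almost every point `exp(iθ)`, `0 < θ ≤ 2π`, of the unit circle, with
respect to arc length. -/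
def AECircle (p : ℂ → Prop) : Prop :=
  ∀ᵐ θ : ℝ ∂(volume.restrict (Ioc 0 (2 * Real.pi))), p (Complex.exp (θ * Complex.I))

/-- Inner functions: holomorphic self-maps of the open unit disc whose radial limits exist and have
modulus one at almost every point of the unit circle. -/
def IsInner (f : ℂ → ℂ) : Prop :=
  DifferentiableOn ℂ f (ball 0 1) ∧ MapsTo f (ball 0 1) (ball 0 1) ∧
    AECircle (fun ζ => ∃ w, ‖w‖ = 1 ∧ RadialLim f ζ w)

/-- The forward composition: `comp f n` is `f_n ∘ ... ∘ f_1`, where `f_k` is `f (k - 1)`. -/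
def comp (f : ℕ → ℂ → ℂ) : ℕ → ℂ → ℂ
  | 0 => id
  | n + 1 => f n ∘ comp f n

/-- The hyperbolic distance of the unit disc. -/
noncomputable def hdist (z w : ℂ) : ℝ :=
  1 / 2 * Real.log ((1 + ‖(z - w) / (1 - (starRingEnd ℂ) z * w)‖) /
    (1 - ‖(z - w) / (1 - (starRingEnd ℂ) z * w)‖))

/-- The forward composition is contracting: hyperbolic distances between orbits tend to zero. -/
def Contracting (f : ℕ → ℂ → ℂ) : Prop :=
  ∀ z ∈ ball (0 : ℂ) 1, ∀ z' ∈ ball (0 : ℂ) 1,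
    Tendsto (fun n => hdist (comp f n z) (comp f n z')) atTop (𝓝 0)

/-- The Denjoy-Wolff set: the points `ζ` of the unit circle where all the `F_n` have radial limits
`F_n(ζ)` and `|F_n(ζ) - F_n(0)| → 0`. -/
def DWSet (f : ℕ → ℂ → ℂ) : Set ℂ :=
  {ζ | ‖ζ‖ = 1 ∧ ∃ w : ℕ → ℂ, (∀ n, RadialLim (comp f n) ζ (w n)) ∧
    Tendsto (fun n => ‖w n - comp f n 0‖) atTop (𝓝 0)}

/-! ### Nice maps -/

/-- Continuous self-maps of the closed disc, holomorphic inside, preserving disc and circle. -/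
structure Nice (f : ℂ → ℂ) : Prop where
  cont : ContinuousOn f (closedBall 0 1)
  diff : DifferentiableOn ℂ f (ball 0 1)
  ball : MapsTo f (ball 0 1) (Metric.ball 0 1)
  sphere : MapsTo f (Metric.sphere 0 1) (Metric.sphere 0 1)

lemma Nice.closedBall {f : ℂ → ℂ} (h : Nice f) : MapsTo f (closedBall 0 1) (Metric.closedBall 0 1) := by
  intro z hz
  rw [← ball_union_sphere] at hz ⊢
  rcases hz with hz | hz
  · exact Or.inl (h.ball hz)
  · exact Or.inr (h.sphere hz)

lemma Nice.comp {f g : ℂ → ℂ} (hf : Nice f) (hg : Nice g) : Nice (f ∘ g) :=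
  ⟨hf.cont.comp hg.cont hg.closedBall, hf.diff.comp hg.diff hg.ball,
    hf.ball.comp hg.ball, hf.sphere.comp hg.sphere⟩

lemma nice_id : Nice id := ⟨continuousOn_id, differentiableOn_id, mapsTo_id _, mapsTo_id _⟩

lemma Nice.radialLim {f : ℂ → ℂ} (h : Nice f) {ζ : ℂ} (hζ : ‖ζ‖ = 1) : RadialLim f ζ (f ζ) := by
  have h1 : ContinuousWithinAt f (Metric.closedBall 0 1) ζ := h.cont ζ (by simp [hζ])
  have h2 : Tendsto (fun r : ℝ => (r : ℂ) * ζ) (𝓝[<] (1 : ℝ)) (𝓝[Metric.closedBall 0 1] ζ) := by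
    rw [tendsto_nhdsWithin_iff]
    constructor
    · have : Tendsto (fun r : ℝ => (r : ℂ) * ζ) (𝓝 (1 : ℝ)) (𝓝 (((1 : ℝ) : ℂ) * ζ)) := by
        apply Continuous.tendsto
        fun_prop
      simpa using this.mono_left nhdsWithin_le_nhds
    · have : ∀ᶠ r : ℝ in 𝓝[<] (1 : ℝ), 0 < r :=
        nhdsWithin_le_nhds (lt_mem_nhds zero_lt_one)
      filter_upwards [this, self_mem_nhdsWithin] with r hr hr1
      rw [mem_closedBall_zero_iff, norm_mul, hζ, mul_one, Complex.norm_real, Real.norm_eq_abs,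
        abs_of_pos hr]
      exact le_of_lt hr1
  exact h1.tendsto.comp h2

lemma Nice.isInner {f : ℂ → ℂ} (h : Nice f) : IsInner f := by
  refine ⟨h.diff, h.ball, Eventually.of_forall fun θ => ?_⟩
  have hζ : ‖Complex.exp (θ * Complex.I)‖ = 1 := Complex.norm_exp_ofReal_mul_I θ
  refine ⟨f (Complex.exp (θ * Complex.I)), ?_, h.radialLim hζ⟩
  exact mem_sphere_zero_iff_norm.mp (h.sphere (mem_sphere_zero_iff_norm.mpr hζ))

/-! ### The two families of maps -/

/-- the Blaschke product `z (c - z) / (1 - c z)` -/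
noncomputable def C (c : ℝ) (z : ℂ) : ℂ := z * ((c - z) / (1 - c * z))

/-- the automorphism `(z + a) / (1 + a z)` -/
noncomputable def M (a : ℝ) (z : ℂ) : ℂ := (z + a) / (1 + a * z)

lemma den_ne {a : ℝ} (ha : |a| < 1) {z : ℂ} (hz : ‖z‖ ≤ 1) : 1 + (a : ℂ) * z ≠ 0 := by
  intro h
  have h1 : (a : ℂ) * z = -1 := by linear_combination h
  have h2 : |a| * ‖z‖ = 1 := by
    have := congrArg norm h1
    rwa [norm_mul, Complex.norm_real, Real.norm_eq_abs, norm_neg, norm_one] at this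
  nlinarith [abs_nonneg a, norm_nonneg z]

lemma normSq_identity (a : ℝ) (z : ℂ) :
    Complex.normSq (1 + a * z) - Complex.normSq (z + a) = (1 - a ^ 2) * (1 - Complex.normSq z) := by
  simp only [Complex.normSq_apply, Complex.add_re, Complex.add_im, Complex.mul_re, Complex.mul_im,
    Complex.ofReal_re, Complex.ofReal_im, Complex.one_re, Complex.one_im]
  ring

lemma norm_M_le {a : ℝ} (ha : |a| < 1) {z : ℂ} (hz : ‖z‖ ≤ 1) :
    ‖M a z‖ ≤ 1 ∧ (‖z‖ < 1 → ‖M a z‖ < 1) ∧ (‖z‖ = 1 → ‖M a z‖ = 1) := by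
  have hd := den_ne ha hz
  have hd' : 0 < ‖1 + (a : ℂ) * z‖ := norm_pos_iff.mpr hd
  have ha2 : 0 < 1 - a ^ 2 := by
    have := (sq_lt_one_iff_abs_lt_one a).mpr ha
    linarith
  have key := normSq_identity a z
  rw [Complex.normSq_eq_norm_sq, Complex.normSq_eq_norm_sq, Complex.normSq_eq_norm_sq] at key
  have hM : ‖M a z‖ = ‖z + a‖ / ‖1 + (a : ℂ) * z‖ := by rw [M, norm_div]
  refine ⟨?_, ?_, ?_⟩
  · rw [hM, div_le_one hd']
    have h1 : 0 ≤ 1 - ‖z‖ ^ 2 := by nlinarith [norm_nonneg z]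
    apply le_of_sq_le_sq _ (norm_nonneg _)
    nlinarith [mul_nonneg ha2.le h1]
  · intro hz1
    rw [hM, div_lt_one hd']
    have h1 : 0 < 1 - ‖z‖ ^ 2 := by nlinarith [norm_nonneg z]
    apply lt_of_pow_lt_pow_left₀ 2 (norm_nonneg _)
    nlinarith [mul_pos ha2 h1]
  · intro hz1
    rw [hM, div_eq_one_iff_eq hd'.ne']
    rw [hz1] at key
    have : ‖z + (a : ℂ)‖ ^ 2 = ‖1 + (a : ℂ) * z‖ ^ 2 := by linarith
    exact (pow_left_inj₀ (norm_nonneg _) (norm_nonneg _) two_ne_zero).mp this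

lemma nice_M {a : ℝ} (ha : |a| < 1) : Nice (M a) := by
  have hdiff : ∀ z ∈ Metric.closedBall (0 : ℂ) 1, DifferentiableAt ℂ (M a) z := by
    intro z hz
    have := den_ne ha (mem_closedBall_zero_iff.mp hz)
    unfold M
    fun_prop (disch := assumption)
  refine ⟨fun z hz => (hdiff z hz).continuousAt.continuousWithinAt,
    fun z hz => (hdiff z (ball_subset_closedBall hz)).differentiableWithinAt, ?_, ?_⟩
  · intro z hz
    rw [mem_ball_zero_iff] at hz ⊢
    exact (norm_M_le ha hz.le).2.1 hz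
  · intro z hz
    rw [mem_sphere_zero_iff_norm] at hz ⊢
    exact (norm_M_le ha hz.le).2.2 hz

lemma C_eq (c : ℝ) (z : ℂ) : C c z = -(z * M (-c) z) := by
  unfold C M
  push_cast
  rw [show (1 : ℂ) + -↑c * z = 1 - c * z by ring, show z + -(c : ℂ) = -(c - z) by ring, neg_div]
  ring

lemma norm_C_le {c : ℝ} (hc : |c| < 1) {z : ℂ} (hz : ‖z‖ ≤ 1) : ‖C c z‖ ≤ ‖z‖ := by
  rw [C_eq, norm_neg, norm_mul]
  have := (norm_M_le (a := -c) (by rwa [abs_neg]) hz).1
  nlinarith [norm_nonneg z]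

lemma nice_C {c : ℝ} (hc : |c| < 1) : Nice (C c) := by
  have hM := nice_M (a := -c) (by rwa [abs_neg])
  have heq : C c = fun z => -(z * M (-c) z) := funext (C_eq c)
  refine ⟨?_, ?_, ?_, ?_⟩
  · rw [heq]
    exact (continuousOn_id.mul hM.cont).neg
  · rw [heq]
    exact (differentiableOn_id.mul hM.diff).neg
  · intro z hz
    rw [mem_ball_zero_iff] at hz ⊢
    exact (norm_C_le hc hz.le).trans_lt hz
  · intro z hz
    have h1 := hM.sphere hz
    rw [mem_sphere_zero_iff_norm] at hz h1 ⊢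
    rw [C_eq, norm_neg, norm_mul, hz, h1, one_mul]

lemma M_inv {a : ℝ} (ha : |a| < 1) {z : ℂ} (hz : ‖z‖ ≤ 1) : M (-a) (M a z) = z := by
  have hd := den_ne ha hz
  set D : ℂ := 1 + (a : ℂ) * z with hD
  have ha2 : (1 : ℂ) - a ^ 2 ≠ 0 := by
    have h1 := (sq_lt_one_iff_abs_lt_one a).mpr ha
    have h2 : (1 - a ^ 2 : ℝ) ≠ 0 := by linarith
    exact_mod_cast h2
  have h3 : 1 + (-(a : ℂ)) * ((z + a) / D) = (1 - a ^ 2) / D := by
    rw [eq_div_iff hd, add_mul, mul_assoc, div_mul_cancel₀ _ hd, hD]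
    ring
  have h4 : (z + a) / D + (-(a : ℂ)) = z * (1 - a ^ 2) / D := by
    rw [eq_div_iff hd, add_mul, div_mul_cancel₀ _ hd, hD]
    ring
  unfold M
  push_cast
  rw [← hD, h3, h4, div_div_div_cancel_right₀ hd, mul_div_cancel_right₀ _ ha2]

lemma M_zero (a : ℝ) : M a 0 = a := by simp [M]

lemma C_zero (c : ℝ) : C c 0 = 0 := by simp [C]

/-! ### The construction -/

/-- the position of the orbit of `0` -/
noncomputable def a (n : ℕ) : ℝ := n / (n + 1)

open Classical in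
/-- the parameter of the Blaschke products -/
noncomputable def c (n : ℕ) : ℝ := if ∃ k : ℕ, n = 2 ^ k then 0 else 1 - (1 / 8) ^ n

lemma a_nonneg (n : ℕ) : 0 ≤ a n := by unfold a; positivity

lemma one_sub_a (n : ℕ) : 1 - a n = 1 / (n + 1) := by
  unfold a
  field_simp
  ring

lemma a_lt_one (n : ℕ) : a n < 1 := by
  have : 0 < 1 - a n := by rw [one_sub_a]; positivity
  linarith

lemma abs_a (n : ℕ) : |a n| < 1 := by rw [abs_of_nonneg (a_nonneg n)]; exact a_lt_one n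

lemma c_nonneg (n : ℕ) : 0 ≤ c n := by
  unfold c
  split_ifs
  · exact le_refl _
  · have : ((1 : ℝ) / 8) ^ n ≤ 1 := pow_le_one₀ (by norm_num) (by norm_num)
    linarith

lemma c_lt_one (n : ℕ) : c n < 1 := by
  unfold c
  split_ifs
  · norm_num
  · have : 0 < ((1 : ℝ) / 8) ^ n := by positivity
    linarith

lemma abs_c (n : ℕ) : |c n| < 1 := by rw [abs_of_nonneg (c_nonneg n)]; exact c_lt_one n

lemma c_pow (k : ℕ) : c (2 ^ k) = 0 := by
  unfold c
  rw [if_pos ⟨k, rfl⟩]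

/-- the inner functions: `f n` is `f_{n+1}` -/
noncomputable def f (n : ℕ) : ℂ → ℂ := M (a (n + 1)) ∘ C (c (n + 1)) ∘ M (-a n)

/-- the centred compositions -/
noncomputable def H : ℕ → ℂ → ℂ
  | 0 => id
  | n + 1 => C (c (n + 1)) ∘ H n

lemma nice_f (n : ℕ) : Nice (f n) :=
  (nice_M (abs_a _)).comp ((nice_C (abs_c _)).comp (nice_M (by rw [abs_neg]; exact abs_a n)))

lemma nice_H (n : ℕ) : Nice (H n) := by
  induction n with
  | zero => exact nice_id
  | succ n ih => exact (nice_C (abs_c _)).comp ih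

lemma H_zero (n : ℕ) : H n 0 = 0 := by
  induction n with
  | zero => rfl
  | succ n ih => simp [H, ih, C_zero]

lemma comp_f (n : ℕ) {z : ℂ} (hz : ‖z‖ ≤ 1) : comp f n z = M (a n) (H n z) := by
  induction n with
  | zero => simp [comp, H, M, a]
  | succ n ih =>
    have h1 : ‖H n z‖ ≤ 1 := by
      simpa using (nice_H n).closedBall (by simpa using hz)
    simp only [comp, Function.comp_apply, H, f, ih, M_inv (abs_a n) h1]

lemma comp_f_zero (n : ℕ) : comp f n 0 = a n := by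
  rw [comp_f n (by simp), H_zero, M_zero]

lemma nice_comp (n : ℕ) : Nice (comp f n) := by
  induction n with
  | zero => exact nice_id
  | succ n ih => exact (nice_f n).comp ih

/-! ### Non-injectivity -/

lemma C_not_inj {c : ℝ} (h0 : 0 ≤ c) (h1 : c < 1) :
    ∃ z w : ℂ, z ≠ w ∧ ‖z‖ < 1 ∧ ‖w‖ < 1 ∧ C c z = C c w := by
  by_cases hc : c = 0
  · refine ⟨1 / 2, -(1 / 2), by norm_num, by norm_num, by norm_num, ?_⟩
    subst hc
    simp [C]
  · refine ⟨0, c, ?_, by simp, ?_, ?_⟩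
    · intro h
      exact hc (by exact_mod_cast h.symm)
    · rw [Complex.norm_real, Real.norm_eq_abs, abs_of_nonneg h0]
      exact h1
    · simp [C]

lemma f_not_inj (n : ℕ) : ¬ InjOn (f n) (ball 0 1) := by
  intro hinj
  obtain ⟨z, w, hzw, hz, hw, h⟩ := C_not_inj (c_nonneg (n + 1)) (c_lt_one (n + 1))
  have hz1 := (norm_M_le (abs_a n) hz.le).2.1 hz
  have hw1 := (norm_M_le (abs_a n) hw.le).2.1 hw
  have h1 : f n (M (a n) z) = f n (M (a n) w) := by
    simp only [f, Function.comp_apply, M_inv (abs_a n) hz.le, M_inv (abs_a n) hw.le, h]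
  have h2 := hinj (by simpa using hz1) (by simpa using hw1) h1
  have h3 := congrArg (M (-a n)) h2
  rw [M_inv (abs_a n) hz.le, M_inv (abs_a n) hw.le] at h3
  exact hzw h3

/-! ### Measure estimates -/

lemma meas_bound {H : ℂ → ℂ} (hH : Nice H) (h0 : H 0 = 0) {b : ℂ} (hb : ‖b‖ = 1) {ε : ℝ}
    (hε : 0 < ε) :
    (volume.restrict (Ioc 0 (2 * Real.pi))) {θ : ℝ | ‖H (Complex.exp (θ * Complex.I)) - b‖ < ε} ≤
      ENNReal.ofReal (8 * Real.pi * ε) := by
  have hpi := Real.pi_pos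
  rcases le_or_gt 1 ε with h1 | h1
  · refine (measure_mono (subset_univ _)).trans ?_
    rw [Measure.restrict_apply_univ, Real.volume_Ioc]
    apply ENNReal.ofReal_le_ofReal
    nlinarith
  set r : ℝ := 1 - ε with hr
  have hr0 : 0 < r := by linarith
  have hr1 : r < 1 := by linarith
  have hbb : (starRingEnd ℂ) b * b = 1 := by
    rw [← Complex.normSq_eq_conj_mul_self, Complex.normSq_eq_norm_sq, hb]
    norm_num
  set g : ℂ → ℂ := fun w => (1 + r * (starRingEnd ℂ) b * w) / (1 - r * (starRingEnd ℂ) b * w) with hg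
  have hden : ∀ w : ℂ, ‖w‖ ≤ 1 → 1 - r * (starRingEnd ℂ) b * w ≠ 0 := by
    intro w hw h
    have h2 : (r : ℂ) * (starRingEnd ℂ) b * w = 1 := by linear_combination -h
    have h3 := congrArg norm h2
    rw [norm_mul, norm_mul, Complex.norm_real, Real.norm_eq_abs, abs_of_pos hr0, RCLike.norm_conj,
      hb, norm_one, mul_one] at h3
    nlinarith [norm_nonneg w]
  have hgd : ∀ w : ℂ, ‖w‖ ≤ 1 → DifferentiableAt ℂ g w := by
    intro w hw
    have := hden w hw
    rw [hg]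
    fun_prop (disch := assumption)
  have hgH : DiffContOnCl ℂ (g ∘ H) (Metric.ball 0 |(1 : ℝ)|) := by
    rw [abs_one]
    refine ⟨?_, ?_⟩
    · intro z hz
      have h2 := hH.ball hz
      exact ((hgd _ (mem_ball_zero_iff.mp h2).le).differentiableWithinAt).comp z (hH.diff z hz)
        (mapsTo_univ _ _)
    · rw [closure_ball _ one_ne_zero]
      intro z hz
      have h2 := hH.closedBall hz
      exact ((hgd _ (mem_closedBall_zero_iff.mp h2)).continuousAt.continuousWithinAt).comp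
        (hH.cont z hz) (mapsTo_univ _ _)
  have hav := hgH.circleAverage
  have hg1 : (g ∘ H) 0 = 1 := by simp [hg, h0]
  rw [hg1, Real.circleAverage_def] at hav
  have hcm : ∀ θ : ℝ, circleMap 0 1 θ = Complex.exp (θ * Complex.I) := by
    intro θ
    simp [circleMap]
  have hint : ∫ θ in (0 : ℝ)..2 * Real.pi, (g ∘ H) (Complex.exp (θ * Complex.I)) =
      ((2 * Real.pi : ℝ) : ℂ) := by
    have h2 : ((2 * Real.pi : ℝ) : ℂ) ≠ 0 := by exact_mod_cast (by positivity : (2 * Real.pi) ≠ 0)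
    simp only [hcm] at hav
    rw [Complex.real_smul, Complex.ofReal_inv, inv_mul_eq_iff_eq_mul₀ h2, mul_one] at hav
    exact hav
  have hcont : Continuous fun θ : ℝ => (g ∘ H) (Complex.exp (θ * Complex.I)) := by
    have h2 : ContinuousOn (g ∘ H) (Metric.closedBall 0 1) := by
      have := hgH.2
      rwa [abs_one, closure_ball _ one_ne_zero] at this
    refine h2.comp_continuous (by fun_prop) fun θ => ?_
    rw [mem_closedBall_zero_iff, Complex.norm_exp_ofReal_mul_I]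
  have hre : ∫ θ in (0 : ℝ)..2 * Real.pi, ((g ∘ H) (Complex.exp (θ * Complex.I))).re =
      2 * Real.pi := by
    have h2 := Complex.reCLM.intervalIntegral_comp_comm
      (hcont.intervalIntegrable (μ := volume) 0 (2 * Real.pi))
    simp only [Complex.reCLM_apply] at h2
    rw [h2, hint, Complex.ofReal_re]
  have hgre : ∀ w : ℂ, ‖w‖ = 1 → (g w).re = (1 - r ^ 2) / ‖b - r * w‖ ^ 2 := by
    intro w hw
    have hnd : ‖1 - r * (starRingEnd ℂ) b * w‖ = ‖b - r * w‖ := by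
      have : b - r * w = b * (1 - r * (starRingEnd ℂ) b * w) := by
        linear_combination ((r : ℂ) * w) * hbb
      rw [this, norm_mul, hb, one_mul]
    rw [hg]
    simp only
    rw [Complex.div_re, ← hnd, ← Complex.normSq_eq_norm_sq]
    rw [← add_div]
    congr 1
    have hw2 : w.re ^ 2 + w.im ^ 2 = 1 := by
      have := Complex.normSq_eq_norm_sq w
      rw [hw, Complex.normSq_apply] at this
      nlinarith
    have hb2 : b.re ^ 2 + b.im ^ 2 = 1 := by
      have := Complex.normSq_eq_norm_sq b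
      rw [hb, Complex.normSq_apply] at this
      nlinarith
    simp only [Complex.add_re, Complex.add_im, Complex.sub_re, Complex.sub_im, Complex.mul_re,
      Complex.mul_im, Complex.ofReal_re, Complex.ofReal_im, Complex.one_re, Complex.one_im,
      Complex.conj_re, Complex.conj_im]
    ring_nf
    have h3 : (b.re ^ 2 + b.im ^ 2) * (w.re ^ 2 + w.im ^ 2) = 1 := by rw [hw2, hb2, one_mul]
    linear_combination (-(r ^ 2)) * h3
  have hnn : ∀ θ : ℝ, 0 ≤ ((g ∘ H) (Complex.exp (θ * Complex.I))).re := by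
    intro θ
    have h2 : ‖H (Complex.exp (θ * Complex.I))‖ = 1 := by
      have := hH.sphere (mem_sphere_zero_iff_norm.mpr (Complex.norm_exp_ofReal_mul_I θ))
      exact mem_sphere_zero_iff_norm.mp this
    rw [Function.comp_apply, hgre _ h2]
    have : 0 ≤ 1 - r ^ 2 := by nlinarith
    positivity
  have hsub : {θ : ℝ | ‖H (Complex.exp (θ * Complex.I)) - b‖ < ε} ⊆
      {θ : ℝ | 1 / (4 * ε) ≤ ((g ∘ H) (Complex.exp (θ * Complex.I))).re} := by
    intro θ hθ
    simp only [mem_ofPred_eq] at hθ ⊢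
    have h2 : ‖H (Complex.exp (θ * Complex.I))‖ = 1 := by
      have := hH.sphere (mem_sphere_zero_iff_norm.mpr (Complex.norm_exp_ofReal_mul_I θ))
      exact mem_sphere_zero_iff_norm.mp this
    set w := H (Complex.exp (θ * Complex.I)) with hw
    rw [Function.comp_apply, hgre _ h2]
    have h3 : ‖b - r * w‖ ≤ 2 * ε := by
      have : b - r * w = -(w - b) + (ε : ℂ) * w := by
        rw [hr]; push_cast; ring
      rw [this]
      refine (norm_add_le _ _).trans ?_
      rw [norm_neg, norm_mul, h2, Complex.norm_real, Real.norm_eq_abs, abs_of_pos hε]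
      linarith
    have h4 : 0 < ‖b - r * w‖ := by
      rw [norm_pos_iff]
      intro h
      have : b = r * w := by linear_combination h
      have h5 := congrArg norm this
      rw [hb, norm_mul, h2, Complex.norm_real, Real.norm_eq_abs, abs_of_pos hr0] at h5
      linarith
    rw [div_le_div_iff₀ (by positivity) (by positivity)]
    have h5 : ‖b - r * w‖ ^ 2 ≤ (2 * ε) ^ 2 := by gcongr
    have h6 : ε ≤ 1 - r ^ 2 := by nlinarith
    nlinarith
  have hmark := mul_meas_ge_le_integral_of_nonneg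
    (μ := volume.restrict (Ioc 0 (2 * Real.pi)))
    (f := fun θ : ℝ => ((g ∘ H) (Complex.exp (θ * Complex.I))).re)
    (Eventually.of_forall hnn)
    ((Complex.continuous_re.comp hcont).integrableOn_Ioc) (1 / (4 * ε))
  rw [← intervalIntegral.integral_of_le (by positivity), hre] at hmark
  refine (measure_mono hsub).trans ?_
  rw [ENNReal.le_ofReal_iff_toReal_le (measure_ne_top _ _) (by positivity)]
  rw [Measure.real, div_mul_eq_mul_div, one_mul, div_le_iff₀ (by positivity)] at hmark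
  refine hmark.trans (le_of_eq (by ring))

/-! ### The orbit of a boundary point -/

lemma tendsto_log : Tendsto (fun n : ℕ => Nat.log 2 n) atTop atTop := by
  rw [Filter.tendsto_atTop]
  intro k
  filter_upwards [eventually_ge_atTop (2 ^ k)] with n hn
  exact Nat.le_log_of_pow_le (by norm_num) hn

lemma step {n : ℕ} {w : ℂ} (hw : ‖w‖ = 1) (hn : ¬ ∃ k : ℕ, n + 1 = 2 ^ k)
    (h1 : (1 / 2 : ℝ) ^ n ≤ ‖w - 1‖) : ‖C (c (n + 1)) w - w‖ ≤ (1 / 4 : ℝ) ^ n := by
  have hc : c (n + 1) = 1 - (1 / 8) ^ (n + 1) := by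
    unfold c
    rw [if_neg hn]
  set δ : ℝ := (1 / 8) ^ (n + 1) with hδ
  have hδ0 : 0 < δ := by positivity
  have hδ1 : δ ≤ (1 / 2 : ℝ) ^ n / 2 := by
    rw [hδ, pow_succ]
    have : ((1 : ℝ) / 8) ^ n ≤ (1 / 2 : ℝ) ^ n := by gcongr; norm_num
    have h3 : (0 : ℝ) < (1 / 2 : ℝ) ^ n := by positivity
    linarith
  rw [hc]
  have hne : (1 : ℂ) - ((1 - δ : ℝ) : ℂ) * w ≠ 0 := by
    have := den_ne (a := -(1 - δ)) (by
      rw [abs_neg, ← hc]; exact abs_c _) (le_of_eq hw)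
    push_cast at this ⊢
    convert this using 1
    ring
  have heq : C (1 - δ) w - w = -(δ * (w * (1 + w))) / (1 - ((1 - δ : ℝ) : ℂ) * w) := by
    rw [C, eq_div_iff hne, sub_mul, mul_assoc, div_mul_cancel₀ _ hne]
    push_cast
    ring
  have hlow : (1 / 2 : ℝ) ^ n / 2 ≤ ‖(1 : ℂ) - ((1 - δ : ℝ) : ℂ) * w‖ := by
    have h2 : w - 1 = -(1 - ((1 - δ : ℝ) : ℂ) * w) + δ * w := by push_cast; ring
    have h3 : ‖w - 1‖ ≤ ‖(1 : ℂ) - ((1 - δ : ℝ) : ℂ) * w‖ + δ := by
      rw [h2]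
      refine (norm_add_le _ _).trans ?_
      rw [norm_neg, norm_mul, hw, Complex.norm_real, Real.norm_eq_abs, abs_of_pos hδ0, mul_one]
    linarith
  have hnum : ‖-((δ : ℂ) * (w * (1 + w)))‖ ≤ 2 * δ := by
    rw [norm_neg, norm_mul, norm_mul, hw, one_mul, Complex.norm_real, Real.norm_eq_abs,
      abs_of_pos hδ0]
    have : ‖1 + w‖ ≤ 2 := by
      refine (norm_add_le _ _).trans ?_
      rw [hw, norm_one]
      norm_num
    nlinarith
  rw [heq, norm_div]
  have hp : (0 : ℝ) < (1 / 2 : ℝ) ^ n / 2 := by positivity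
  rw [div_le_iff₀ (hp.trans_le hlow)]
  have h4 : (2 : ℝ) * δ = (1 / 4) ^ n * ((1 / 2 : ℝ) ^ n / 2) * (1 / 2) := by
    rw [hδ, pow_succ, show ((1 : ℝ) / 8) = 1 / 4 * (1 / 2) by norm_num, mul_pow]
    ring
  calc ‖-((δ : ℂ) * (w * (1 + w)))‖ ≤ 2 * δ := hnum
    _ = (1 / 4) ^ n * ((1 / 2 : ℝ) ^ n / 2) * (1 / 2) := h4
    _ ≤ (1 / 4) ^ n * ((1 / 2 : ℝ) ^ n / 2) := by
        have : (0 : ℝ) < (1 / 4) ^ n * ((1 / 2 : ℝ) ^ n / 2) := by positivity
        linarith
    _ ≤ (1 / 4) ^ n * ‖(1 : ℂ) - ((1 - δ : ℝ) : ℂ) * w‖ := by gcongr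

lemma M_dist {a : ℝ} (ha0 : 0 ≤ a) (ha1 : a < 1) {w : ℂ} (hw : ‖w‖ = 1) {η : ℝ}
    (hη : 1 - a ≤ η) {ρ : ℝ} (hρ : ρ ≤ ‖w + 1‖) (hηρ : η < ρ) :
    ‖M a w - a‖ ≤ 2 * η / (ρ - η) := by
  have hne := den_ne (a := a) (by rw [abs_of_nonneg ha0]; exact ha1) hw.le
  have heq : M a w - a = (1 - a ^ 2 : ℝ) * w / (1 + a * w) := by
    rw [M, eq_div_iff hne, sub_mul, div_mul_cancel₀ _ hne]
    push_cast
    ring
  have hlow : ρ - η ≤ ‖1 + (a : ℂ) * w‖ := by
    have h2 : w + 1 = (1 + (a : ℂ) * w) + (1 - a : ℝ) * w := by push_cast; ring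
    have h3 : ‖w + 1‖ ≤ ‖1 + (a : ℂ) * w‖ + (1 - a) := by
      rw [h2]
      refine (norm_add_le _ _).trans ?_
      rw [norm_mul ((1 - a : ℝ) : ℂ), hw, Complex.norm_real, Real.norm_eq_abs,
        abs_of_pos (by linarith), mul_one]
    linarith
  have hpos : 0 < ρ - η := by linarith
  rw [heq, norm_div, norm_mul, hw, Complex.norm_real, Real.norm_eq_abs, mul_one,
    abs_of_nonneg (by nlinarith)]
  rw [div_le_div_iff₀ (hpos.trans_le hlow) hpos]
  have h5 : 1 - a ^ 2 ≤ 2 * η := by nlinarith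
  have h6 : 0 ≤ 2 * η := by nlinarith
  calc (1 - a ^ 2) * (ρ - η) ≤ 2 * η * (ρ - η) := by gcongr
    _ ≤ 2 * η * ‖1 + (a : ℂ) * w‖ := by gcongr

lemma H_norm (n : ℕ) {ζ : ℂ} (hζ : ‖ζ‖ = 1) : ‖H n ζ‖ = 1 :=
  mem_sphere_zero_iff_norm.mp ((nice_H n).sphere (mem_sphere_zero_iff_norm.mpr hζ))

/-- displacement inside a block -/
lemma block {ζ : ℂ} (hζ : ‖ζ‖ = 1) {k : ℕ}
    (h1 : ∀ n, 2 ^ k ≤ n → (1 / 2 : ℝ) ^ n ≤ ‖H n ζ - 1‖) (j : ℕ) (hj : 2 ^ k + j < 2 ^ (k + 1)) :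
    ‖H (2 ^ k + j) ζ - H (2 ^ k) ζ‖ ≤ (4 / 3) * ((1 / 4 : ℝ) ^ (2 ^ k) - (1 / 4) ^ (2 ^ k + j)) := by
  induction j with
  | zero => simp
  | succ j ih =>
    have ih' := ih (by omega)
    have hnot : ¬ ∃ l : ℕ, 2 ^ k + j + 1 = 2 ^ l := by
      rintro ⟨l, hl⟩
      have h2 : 2 ^ k < 2 ^ l := by omega
      have h3 : 2 ^ l < 2 ^ (k + 1) := by omega
      have h4 := (Nat.pow_lt_pow_iff_right (by norm_num : 1 < 2)).mp h2
      have h5 := (Nat.pow_lt_pow_iff_right (by norm_num : 1 < 2)).mp h3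
      omega
    have h2 := step (H_norm (2 ^ k + j) hζ) hnot (h1 _ (by omega))
    have h3 : H (2 ^ k + (j + 1)) ζ = C (c (2 ^ k + j + 1)) (H (2 ^ k + j) ζ) := rfl
    rw [h3]
    calc ‖C (c (2 ^ k + j + 1)) (H (2 ^ k + j) ζ) - H (2 ^ k) ζ‖
        ≤ ‖C (c (2 ^ k + j + 1)) (H (2 ^ k + j) ζ) - H (2 ^ k + j) ζ‖ +
          ‖H (2 ^ k + j) ζ - H (2 ^ k) ζ‖ := norm_sub_le_norm_sub_add_norm_sub _ _ _
      _ ≤ (1 / 4) ^ (2 ^ k + j) + (4 / 3) * ((1 / 4 : ℝ) ^ (2 ^ k) - (1 / 4) ^ (2 ^ k + j)) :=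
        add_le_add h2 ih'
      _ = (4 / 3) * ((1 / 4 : ℝ) ^ (2 ^ k) - (1 / 4) ^ (2 ^ k + (j + 1))) := by
        rw [← add_assoc (2 ^ k) j 1, pow_succ (1 / 4 : ℝ) (2 ^ k + j)]
        ring

lemma good_point {ζ : ℂ} (hζ : ‖ζ‖ = 1)
    (h1 : ∀ᶠ n in atTop, (1 / 2 : ℝ) ^ n ≤ ‖H n ζ - 1‖)
    (h2 : ∀ᶠ k in atTop, 2 * (2 / 3 : ℝ) ^ k ≤ ‖H (2 ^ k) ζ - (-1)‖) :
    Tendsto (fun n => ‖comp f n ζ - comp f n 0‖) atTop (𝓝 0) := by
  have hlim : Tendsto (fun k : ℕ => 2 / ((4 / 3 : ℝ) ^ k - 1)) atTop (𝓝 0) := by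
    apply Tendsto.const_div_atTop
    have h3 := tendsto_pow_atTop_atTop_of_one_lt (by norm_num : (1 : ℝ) < 4 / 3)
    exact tendsto_atTop_add_const_right _ _ h3
  have hlim2 := hlim.comp tendsto_log
  obtain ⟨N, hN⟩ := eventually_atTop.mp h1
  obtain ⟨K, hK⟩ := eventually_atTop.mp h2
  refine squeeze_zero' (Eventually.of_forall fun n => norm_nonneg _) ?_ hlim2
  have hev := tendsto_log.eventually (eventually_ge_atTop (max (max K N) 1))
  filter_upwards [hev, eventually_ge_atTop 1] with n hn hn1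
  simp only [Function.comp_apply]
  have hle : 2 ^ Nat.log 2 n ≤ n := Nat.pow_log_le_self 2 (by omega)
  have hlt : n < 2 ^ (Nat.log 2 n + 1) := Nat.lt_pow_succ_log_self (by norm_num) n
  generalize Nat.log 2 n = k at hn hle hlt ⊢
  have hkK : K ≤ k := (le_max_left _ _).trans ((le_max_left _ _).trans hn)
  have hkN : N ≤ k := (le_max_right _ _).trans ((le_max_left _ _).trans hn)
  have hk1 : 1 ≤ k := (le_max_right _ _).trans hn
  have hkp : k < 2 ^ k := Nat.lt_two_pow_self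
  obtain ⟨j, rfl⟩ : ∃ j, n = 2 ^ k + j := ⟨n - 2 ^ k, by omega⟩
  have hb := block hζ (k := k) (fun m hm => hN m (by omega)) j hlt
  have hpow : (4 / 3) * ((1 / 4 : ℝ) ^ (2 ^ k) - (1 / 4) ^ (2 ^ k + j)) ≤ (2 / 3 : ℝ) ^ k := by
    have h3 : (1 / 4 : ℝ) ^ (2 ^ k) ≤ (1 / 4 : ℝ) ^ (k + 1) :=
      pow_le_pow_of_le_one (by norm_num) (by norm_num) (by omega)
    have h4 : (0 : ℝ) ≤ (1 / 4) ^ (2 ^ k + j) := by positivity
    have h5 : (1 / 4 : ℝ) ^ k ≤ (2 / 3 : ℝ) ^ k :=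
      pow_le_pow_left₀ (by norm_num) (by norm_num) k
    have h6 : (0 : ℝ) < (1 / 4) ^ k := by positivity
    rw [pow_succ] at h3
    linarith
  have hK' := hK k hkK
  set w := H (2 ^ k + j) ζ with hw
  have hw1 : ‖w‖ = 1 := H_norm _ hζ
  have hρ : (2 / 3 : ℝ) ^ k ≤ ‖w + 1‖ := by
    have h3 : H (2 ^ k) ζ - (-1) = (w + 1) - (w - H (2 ^ k) ζ) := by ring
    rw [h3] at hK'
    have h4 := norm_sub_le (w + 1) (w - H (2 ^ k) ζ)
    linarith
  have hη : 1 - a (2 ^ k + j) ≤ (1 / 2 : ℝ) ^ k := by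
    rw [one_sub_a, one_div_pow]
    apply one_div_le_one_div_of_le (by positivity)
    have : ((2 ^ k : ℕ) : ℝ) ≤ ((2 ^ k + j : ℕ) : ℝ) := by exact_mod_cast hle
    push_cast at this ⊢
    linarith
  have hηρ : (1 / 2 : ℝ) ^ k < (2 / 3 : ℝ) ^ k := by
    apply pow_lt_pow_left₀ (by norm_num) (by norm_num) (by omega)
  have hfin := M_dist (a_nonneg _) (a_lt_one _) hw1 hη hρ hηρ
  rw [comp_f _ hζ.le, comp_f_zero]
  refine hfin.trans (le_of_eq ?_)
  have h7 : (0 : ℝ) < (1 / 2) ^ k := by positivity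
  have h8 : (2 / 3 : ℝ) ^ k = (1 / 2) ^ k * (4 / 3) ^ k := by
    rw [← mul_pow]; norm_num
  rw [h8]
  have h9 : (0 : ℝ) < (4 / 3) ^ k - 1 := by
    have := one_lt_pow₀ (by norm_num : (1 : ℝ) < 4 / 3) (by omega : k ≠ 0)
    linarith
  field_simp

lemma dw_ae : AECircle (fun ζ => ζ ∈ DWSet f) := by
  unfold AECircle
  have hpi := Real.pi_pos
  set μ := volume.restrict (Ioc 0 (2 * Real.pi)) with hμ
  have hA : ∀ᵐ θ : ℝ ∂μ, ∀ᶠ n in atTop,
      θ ∉ {θ : ℝ | ‖H n (Complex.exp (θ * Complex.I)) - 1‖ < (1 / 2 : ℝ) ^ n} := by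
    apply ae_eventually_notMem
    refine ne_top_of_le_ne_top ?_ (ENNReal.tsum_le_tsum fun n =>
      meas_bound (nice_H n) (H_zero n) norm_one (ε := (1 / 2 : ℝ) ^ n) (by positivity))
    rw [← ENNReal.ofReal_tsum_of_nonneg (fun n => by positivity)]
    · exact ENNReal.ofReal_ne_top
    · exact (summable_geometric_of_lt_one (by norm_num) (by norm_num)).mul_left _
  have hB : ∀ᵐ θ : ℝ ∂μ, ∀ᶠ k in atTop,
      θ ∉ {θ : ℝ | ‖H (2 ^ k) (Complex.exp (θ * Complex.I)) - (-1)‖ < 2 * (2 / 3 : ℝ) ^ k} := by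
    apply ae_eventually_notMem
    refine ne_top_of_le_ne_top ?_ (ENNReal.tsum_le_tsum fun k =>
      meas_bound (nice_H (2 ^ k)) (H_zero (2 ^ k)) (b := -1) (by simp)
        (ε := 2 * (2 / 3 : ℝ) ^ k) (by positivity))
    rw [← ENNReal.ofReal_tsum_of_nonneg (fun n => by positivity)]
    · exact ENNReal.ofReal_ne_top
    · exact ((summable_geometric_of_lt_one (by norm_num) (by norm_num)).mul_left _).mul_left _
  filter_upwards [hA, hB] with θ h1 h2
  have hζ : ‖Complex.exp (θ * Complex.I)‖ = 1 := Complex.norm_exp_ofReal_mul_I θ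
  refine ⟨hζ, fun n => comp f n (Complex.exp (θ * Complex.I)),
    fun n => (nice_comp n).radialLim hζ, ?_⟩
  apply good_point hζ
  · filter_upwards [h1] with n hn
    simpa using hn
  · filter_upwards [h2] with n hn
    simpa only [mem_ofPred_eq, not_lt] using hn

/-! ### Contraction and interior orbits -/

lemma H_small {z : ℂ} (hz : ‖z‖ < 1) : Tendsto (fun n => H n z) atTop (𝓝 0) := by
  have hle1 : ∀ n, ‖H n z‖ ≤ 1 := fun n =>
    mem_closedBall_zero_iff.mp ((nice_H n).closedBall (mem_closedBall_zero_iff.mpr hz.le))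
  have hanti : ∀ n m, n ≤ m → ‖H m z‖ ≤ ‖H n z‖ := by
    intro n m hnm
    induction m, hnm using Nat.le_induction with
    | base => exact le_refl _
    | succ m _ ih => exact (norm_C_le (abs_c _) (hle1 m)).trans ih
  have hpow : ∀ k, ‖H (2 ^ k) z‖ ≤ ‖z‖ ^ (2 ^ k) := by
    intro k
    induction k with
    | zero =>
      have h := hanti 0 1 (by norm_num)
      have h0 : H 0 z = z := rfl
      rw [h0] at h
      simpa using h
    | succ k ih =>
      obtain ⟨m, hm⟩ : ∃ m, 2 ^ (k + 1) = m + 1 := ⟨2 ^ (k + 1) - 1, by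
        have : 0 < 2 ^ (k + 1) := by positivity
        omega⟩
      have hkm : 2 ^ k ≤ m := by
        have : 0 < 2 ^ k := by positivity
        rw [pow_succ] at hm
        omega
      have h3 : H (2 ^ (k + 1)) z = C (c (m + 1)) (H m z) := by rw [hm]; rfl
      have h4 : c (m + 1) = 0 := by rw [← hm]; exact c_pow _
      have h5 : ‖C 0 (H m z)‖ = ‖H m z‖ ^ 2 := by
        simp [C, sq]
      rw [h3, h4, h5]
      calc ‖H m z‖ ^ 2 ≤ (‖z‖ ^ (2 ^ k)) ^ 2 := by
            gcongr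
            exact (hanti _ _ hkm).trans ih
        _ = ‖z‖ ^ (2 ^ (k + 1)) := by rw [← pow_mul, pow_succ]
  rw [tendsto_zero_iff_norm_tendsto_zero]
  have hlim := (tendsto_pow_atTop_nhds_zero_of_lt_one (norm_nonneg z) hz).comp tendsto_log
  refine squeeze_zero' (Eventually.of_forall fun n => norm_nonneg _) ?_ hlim
  filter_upwards [eventually_ge_atTop 1] with n hn
  have hle : 2 ^ Nat.log 2 n ≤ n := Nat.pow_log_le_self 2 (by omega)
  calc ‖H n z‖ ≤ ‖H (2 ^ Nat.log 2 n) z‖ := hanti _ _ hle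
    _ ≤ ‖z‖ ^ (2 ^ Nat.log 2 n) := hpow _
    _ ≤ ‖z‖ ^ Nat.log 2 n :=
      pow_le_pow_of_le_one (norm_nonneg z) hz.le Nat.lt_two_pow_self.le

lemma a_tendsto : Tendsto a atTop (𝓝 1) := by
  have h1 : Tendsto (fun n : ℕ => (1 : ℝ) - 1 / (n + 1)) atTop (𝓝 (1 - 0)) :=
    tendsto_const_nhds.sub tendsto_one_div_add_atTop_nhds_zero_nat
  rw [sub_zero] at h1
  refine h1.congr fun n => ?_
  rw [← one_sub_a]
  ring

lemma orbit_tendsto {z : ℂ} (hz : ‖z‖ < 1) : Tendsto (fun n => comp f n z) atTop (𝓝 1) := by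
  have ha : Tendsto (fun n => (a n : ℂ)) atTop (𝓝 ((1 : ℝ) : ℂ)) :=
    (Complex.continuous_ofReal.tendsto 1).comp a_tendsto
  have hH := H_small hz
  have h1 : Tendsto (fun n => (H n z + a n) / (1 + a n * H n z)) atTop
      (𝓝 ((0 + ((1 : ℝ) : ℂ)) / (1 + ((1 : ℝ) : ℂ) * 0))) :=
    (hH.add ha).div (tendsto_const_nhds.add (ha.mul hH)) (by simp)
  have h2 : (0 + ((1 : ℝ) : ℂ)) / (1 + ((1 : ℝ) : ℂ) * 0) = 1 := by simp
  rw [h2] at h1
  exact h1.congr fun n => (comp_f n hz.le).symm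

lemma pseudo_M {a : ℝ} (ha : |a| < 1) {z w : ℂ} (hz : ‖z‖ ≤ 1) (hw : ‖w‖ ≤ 1) :
    ‖(M a z - M a w) / (1 - (starRingEnd ℂ) (M a z) * M a w)‖ =
      ‖(z - w) / (1 - (starRingEnd ℂ) z * w)‖ := by
  have h1 := den_ne ha hz
  have h2 := den_ne ha hw
  have h3 : 1 + (a : ℂ) * (starRingEnd ℂ) z ≠ 0 := by
    have := den_ne ha (z := (starRingEnd ℂ) z) (by rwa [RCLike.norm_conj])
    exact this
  have ha2 : ((1 - a ^ 2 : ℝ) : ℂ) ≠ 0 := by
    have h1 := (sq_lt_one_iff_abs_lt_one a).mpr ha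
    have h2 : (1 - a ^ 2 : ℝ) ≠ 0 := by linarith
    exact_mod_cast h2
  have hnum : M a z - M a w = ((1 - a ^ 2 : ℝ) : ℂ) * (z - w) / ((1 + a * z) * (1 + a * w)) := by
    rw [M, M, div_sub_div _ _ h1 h2]
    congr 1
    push_cast
    ring
  have hden : 1 - (starRingEnd ℂ) (M a z) * M a w =
      ((1 - a ^ 2 : ℝ) : ℂ) * (1 - (starRingEnd ℂ) z * w) /
        ((1 + a * (starRingEnd ℂ) z) * (1 + a * w)) := by
    have hc : (starRingEnd ℂ) (M a z) = ((starRingEnd ℂ) z + a) / (1 + a * (starRingEnd ℂ) z) := by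
      simp [M]
    rw [hc, M, div_mul_div_comm, eq_div_iff (mul_ne_zero h3 h2), sub_mul,
      div_mul_cancel₀ _ (mul_ne_zero h3 h2)]
    push_cast
    ring
  have hn : ‖1 + (a : ℂ) * z‖ = ‖1 + (a : ℂ) * (starRingEnd ℂ) z‖ := by
    have : 1 + (a : ℂ) * (starRingEnd ℂ) z = (starRingEnd ℂ) (1 + (a : ℂ) * z) := by simp
    rw [this, RCLike.norm_conj]
  rw [hnum, hden, norm_div, norm_div, norm_div, norm_mul, norm_mul, norm_mul, norm_mul, norm_div,
    hn]
  have e1 : ‖1 + (a : ℂ) * (starRingEnd ℂ) z‖ ≠ 0 := norm_ne_zero_iff.mpr h3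
  have e2 : ‖1 + (a : ℂ) * w‖ ≠ 0 := norm_ne_zero_iff.mpr h2
  have e3 : ‖((1 - a ^ 2 : ℝ) : ℂ)‖ ≠ 0 := norm_ne_zero_iff.mpr ha2
  rw [div_div_div_cancel_right₀ (mul_ne_zero e1 e2), mul_div_mul_left _ _ e3]

lemma contracting : Contracting f := by
  intro z hz z' hz'
  rw [mem_ball_zero_iff] at hz hz'
  have hle1 : ∀ n, ‖H n z‖ ≤ 1 := fun n =>
    mem_closedBall_zero_iff.mp ((nice_H n).closedBall (mem_closedBall_zero_iff.mpr hz.le))
  have hle2 : ∀ n, ‖H n z'‖ ≤ 1 := fun n =>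
    mem_closedBall_zero_iff.mp ((nice_H n).closedBall (mem_closedBall_zero_iff.mpr hz'.le))
  have h1 : Tendsto (fun n => ‖(H n z - H n z') / (1 - (starRingEnd ℂ) (H n z) * H n z')‖) atTop
      (𝓝 0) := by
    have h2 : Tendsto (fun n => (H n z - H n z') / (1 - (starRingEnd ℂ) (H n z) * H n z')) atTop
        (𝓝 ((0 - 0) / (1 - (starRingEnd ℂ) 0 * 0))) := by
      refine ((H_small hz).sub (H_small hz')).div (tendsto_const_nhds.sub ?_) (by simp)
      exact ((Complex.continuous_conj.tendsto 0).comp (H_small hz)).mul (H_small hz')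
    have h3 := h2.norm
    simpa using h3
  have h2 : Tendsto (fun p : ℝ => 1 / 2 * Real.log ((1 + p) / (1 - p))) (𝓝 0) (𝓝 0) := by
    have h3 : ContinuousAt (fun p : ℝ => 1 / 2 * Real.log ((1 + p) / (1 - p))) 0 := by
      apply ContinuousAt.mul continuousAt_const
      apply ContinuousAt.log
      · apply ContinuousAt.div
        · fun_prop
        · fun_prop
        · norm_num
      · norm_num
    have h4 := h3.tendsto
    simpa using h4
  refine (h2.comp h1).congr fun n => ?_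
  simp only [Function.comp_apply, hdist]
  rw [comp_f n hz.le, comp_f n hz'.le, pseudo_M (abs_a n) (hle1 n) (hle2 n)]

/-- **Disproof of Q1**: there is a forward composition `F_n = f_n ∘ ... ∘ f_1` of inner functions,
none of them injective, which is contracting, whose interior orbits converge to the boundary, with
`∑ (1 - |F_n(0)|) = ∞`, and whose Denjoy-Wolff set has full measure. -/
theorem result : ∃ f : ℕ → ℂ → ℂ,
    (∀ n, IsInner (f n) ∧ ¬ InjOn (f n) (ball 0 1)) ∧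
    Contracting f ∧
    (∀ z ∈ ball (0 : ℂ) 1, Tendsto (fun n => ‖comp f n z‖) atTop (𝓝 1)) ∧
    (¬ Summable fun n => 1 - ‖comp f n 0‖) ∧
    AECircle (fun ζ => ζ ∈ DWSet f) := by
  refine ⟨f, fun n => ⟨(nice_f n).isInner, f_not_inj n⟩, contracting, ?_, ?_, dw_ae⟩
  · intro z hz
    have := (orbit_tendsto (mem_ball_zero_iff.mp hz)).norm
    simpa using this
  · intro h
    have h1 : (fun n : ℕ => 1 - ‖comp f n 0‖) = fun n : ℕ => 1 / ((n + 1 : ℕ) : ℝ) := by
      funext n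
      rw [comp_f_zero, Complex.norm_real, Real.norm_eq_abs, abs_of_nonneg (a_nonneg n), one_sub_a]
      push_cast
      rfl
    rw [h1] at h
    exact Real.not_summable_one_div_natCast ((summable_nat_add_iff 1).mp h)

end Pool.Agent.Results.MP_9b5b1e_an.DWFullMeasure
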